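import Pool.Agent.Helper39.Uct.Goals3

/-!
Packet UQ: uniqueness of the algebra of compact matrices, right multiplication by the shift, and
the corner.
-/

set_option autoImplicit false

open scoped ComplexOrder
open Filter Topology

namespace Pool.Agent.Helper94.Uct2

open Pool.Agent.Helper39.Uct

section graph

variable {E E' : Type} [NormedAddCommGroup E] [NormedSpace ℂ E] [NormedAddCommGroup E']
  [NormedSpace ℂ E'] [CompleteSpace E']

/-- Extension of a norm preserving linear relation. -/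
theorem exists_lin (R : Submodule ℂ (E × E')) (hn : ∀ z ∈ R, ‖z.1‖ = ‖z.2‖)
    (hd : closure (Prod.fst '' (R : Set (E × E'))) = Set.univ) :
    ∃ Φ : E →ₗ[ℂ] E', (∀ x, ‖Φ x‖ = ‖x‖) ∧ (∀ z ∈ R.topologicalClosure, Φ z.1 = z.2) ∧
      ∀ x, (x, Φ x) ∈ R.topologicalClosure := by
  have hn' : ∀ z ∈ R.topologicalClosure, ‖z.1‖ = ‖z.2‖ := by
    intro z hz
    have hc : IsClosed {z : E × E' | ‖z.1‖ = ‖z.2‖} :=
      isClosed_eq (by fun_prop) (by fun_prop)
    exact closure_minimal (fun z hz => hn z hz) hc hz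
  have uniq : ∀ x y y', (x, y) ∈ R.topologicalClosure → (x, y') ∈ R.topologicalClosure →
      y = y' := by
    intro x y y' h h'
    have h1 := R.topologicalClosure.sub_mem h h'
    have h2 := hn' _ h1
    simp only [Prod.mk_sub_mk, sub_self, norm_zero] at h2
    exact sub_eq_zero.1 (norm_eq_zero.1 h2.symm)
  have ex : ∀ x, ∃ y, (x, y) ∈ R.topologicalClosure := by
    intro x
    have hx : x ∈ closure (Prod.fst '' (R : Set (E × E'))) := by rw [hd]; trivial
    obtain ⟨u, hu1, hu2⟩ := mem_closure_iff_seq_limit.1 hx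
    choose z hz1 hz2 using hu1
    have hdist : ∀ m n, dist (z m).2 (z n).2 = dist (u m) (u n) := by
      intro m n
      have h1 := hn _ (R.sub_mem (hz1 m) (hz1 n))
      rw [← hz2 m, ← hz2 n, dist_eq_norm, dist_eq_norm]
      exact h1.symm
    have hcau : CauchySeq (fun n => (z n).2) := by
      rw [Metric.cauchySeq_iff]
      intro ε hε
      obtain ⟨N, hN⟩ := Metric.cauchySeq_iff.1 hu2.cauchySeq ε hε
      exact ⟨N, fun m hm n hn => by rw [hdist]; exact hN m hm n hn⟩
    obtain ⟨y, hy⟩ := cauchySeq_tendsto_of_complete hcau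
    refine ⟨y, ?_⟩
    have ht : Tendsto (fun n => (u n, (z n).2)) atTop (𝓝 (x, y)) := hu2.prodMk_nhds hy
    refine mem_closure_of_tendsto ht (Eventually.of_forall fun n => ?_)
    have : (u n, (z n).2) = z n := by rw [← hz2 n]
    rw [this]
    exact hz1 n
  choose Φ hΦ using ex
  refine ⟨{ toFun := Φ, map_add' := ?_, map_smul' := ?_ }, ?_, ?_, ?_⟩
  · intro x y
    exact uniq _ _ _ (hΦ _) (R.topologicalClosure.add_mem (hΦ x) (hΦ y))
  · intro c x
    exact uniq _ _ _ (hΦ _) (R.topologicalClosure.smul_mem c (hΦ x))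
  · intro x
    exact (hn' _ (hΦ x)).symm
  · intro z hz
    exact uniq _ _ _ (hΦ _) hz
  · exact hΦ

end graph

section cstar

variable {E E' : Type} [NonUnitalCStarAlgebra E] [NonUnitalCStarAlgebra E']

theorem exists_hom (S : Set (E × E'))
    (hmul : ∀ x ∈ S, ∀ y ∈ S, x * y ∈ Submodule.span ℂ S) (hstar : ∀ x ∈ S, star x ∈ S)
    (hn : ∀ z ∈ Submodule.span ℂ S, ‖z.1‖ = ‖z.2‖)
    (hd : (Submodule.span ℂ (Prod.fst '' S)).topologicalClosure = ⊤)
    (hd' : (Submodule.span ℂ (Prod.snd '' S)).topologicalClosure = ⊤) :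
    ∃ Φ : E →⋆ₙₐ[ℂ] E', Function.Bijective Φ ∧ ∀ z ∈ S, Φ z.1 = z.2 := by
  have hd1 : closure (Prod.fst '' (Submodule.span ℂ S : Set (E × E'))) = Set.univ := by
    have h1 : (Prod.fst '' (Submodule.span ℂ S : Set (E × E'))) =
        (Submodule.span ℂ (Prod.fst '' S) : Submodule ℂ E) := by
      have := Submodule.map_span (LinearMap.fst ℂ E E') S
      have h2 := congrArg (fun M : Submodule ℂ E => (M : Set E)) this
      simp only [Submodule.map_coe, LinearMap.fst_apply] at h2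
      exact h2
    rw [h1]
    have := congrArg (fun M : Submodule ℂ E => (M : Set E)) hd
    exact this
  obtain ⟨Φ, hΦ1, hΦ2, hΦ3⟩ := exists_lin (Submodule.span ℂ S) hn hd1
  have hcl : IsClosed ((Submodule.span ℂ S).topologicalClosure : Set (E × E')) :=
    Submodule.isClosed_topologicalClosure _
  have hM := Pool.Agent.Helper10.Uct.closure_mul_mem S S (Submodule.span ℂ S).topologicalClosure
    hcl (fun x hx y hy => Submodule.le_topologicalClosure _ (hmul x hx y hy))
  have hSt := Pool.Agent.Helper10.Uct.closure_star_mem S S hstar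
  let Ψ : E →⋆ₙₐ[ℂ] E' :=
    { toFun := Φ
      map_smul' := fun c x => Φ.map_smul c x
      map_zero' := Φ.map_zero
      map_add' := Φ.map_add
      map_mul' := fun x y => hΦ2 _ (hM _ (hΦ3 x) _ (hΦ3 y))
      map_star' := fun x => hΦ2 _ (hSt _ (hΦ3 x)) }
  have hΨS : ∀ z ∈ S, Ψ z.1 = z.2 := fun z hz =>
    hΦ2 z (Submodule.le_topologicalClosure _ (Submodule.subset_span hz))
  refine ⟨Ψ, ⟨?_, ?_⟩, hΨS⟩
  · intro x y hxy
    have h1 : Φ x = Φ y := hxy
    have h2 : ‖Φ (x - y)‖ = ‖x - y‖ := hΦ1 _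
    rw [map_sub, h1, sub_self, norm_zero] at h2
    exact sub_eq_zero.1 (norm_eq_zero.1 h2.symm)
  · have hrc : IsClosed (LinearMap.range Φ : Set E') := by
      have h1 : Isometry Φ := AddMonoidHomClass.isometry_of_norm Φ hΦ1
      have h2 := h1.isClosedEmbedding.isClosed_range
      rw [LinearMap.coe_range]
      exact h2
    have h2 : (Submodule.span ℂ (Prod.snd '' S)).topologicalClosure ≤ LinearMap.range Φ := by
      apply Submodule.topologicalClosure_minimal _ _ hrc
      rw [Submodule.span_le]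
      rintro _ ⟨z, hz, rfl⟩
      exact ⟨z.1, hΨS z hz⟩
    intro y
    have h3 : y ∈ LinearMap.range Φ := h2 (by rw [hd']; trivial)
    obtain ⟨x, hx⟩ := h3
    exact ⟨x, hx⟩

/-- Comparison of two C*-norms. -/
theorem norm_le_of_bound (R : Set (E × E')) (hmul : ∀ x ∈ R, ∀ y ∈ R, x * y ∈ R)
    (hstar : ∀ x ∈ R, star x ∈ R) (C : ℝ) (hC : ∀ z ∈ R, ‖z.1‖ ≤ C * ‖z.2‖) :
    ∀ z ∈ R, ‖z.1‖ ≤ ‖z.2‖ := by
  intro z hz
  have key : ∀ k : ℕ, ∃ h ∈ R, star h = h ∧ ‖h.1‖ = ‖z.1‖ ^ (2 ^ (k + 1)) ∧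
      ‖h.2‖ = ‖z.2‖ ^ (2 ^ (k + 1)) := by
    intro k
    induction k with
    | zero =>
      refine ⟨star z * z, hmul _ (hstar _ hz) _ hz, by rw [star_mul, star_star], ?_, ?_⟩
      · have : (star z * z).1 = star z.1 * z.1 := rfl
        rw [this, CStarRing.norm_star_mul_self]
        ring
      · have : (star z * z).2 = star z.2 * z.2 := rfl
        rw [this, CStarRing.norm_star_mul_self]
        ring
    | succ k ih =>
      obtain ⟨h, hR, hs, h1, h2⟩ := ih
      refine ⟨h * h, hmul _ hR _ hR, by rw [star_mul, hs], ?_, ?_⟩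
      · have e1 : (h * h).1 = star h.1 * h.1 := by
          have : star h.1 = h.1 := congrArg Prod.fst hs
          rw [this]; rfl
        rw [e1, CStarRing.norm_star_mul_self, h1, ← pow_add]
        congr 1
        ring
      · have e1 : (h * h).2 = star h.2 * h.2 := by
          have : star h.2 = h.2 := congrArg Prod.snd hs
          rw [this]; rfl
        rw [e1, CStarRing.norm_star_mul_self, h2, ← pow_add]
        congr 1
        ring
  have hk : ∀ k : ℕ, ‖z.1‖ ^ (2 ^ (k + 1)) ≤ C * ‖z.2‖ ^ (2 ^ (k + 1)) := by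
    intro k
    obtain ⟨h, hR, -, h1, h2⟩ := key k
    rw [← h1, ← h2]
    exact hC h hR
  by_contra hlt
  rw [not_le] at hlt
  rcases (norm_nonneg z.2).eq_or_lt with h0 | h0
  · have h1 := hk 0
    rw [← h0, zero_pow (by norm_num), mul_zero] at h1
    rw [← h0] at hlt
    have := pow_pos hlt (2 ^ (0 + 1))
    linarith
  · set r : ℝ := ‖z.1‖ / ‖z.2‖ with hr
    have hr1 : 1 < r := by rw [hr, one_lt_div h0]; exact hlt
    obtain ⟨n, hn⟩ := pow_unbounded_of_one_lt C hr1
    have h1 : r ^ n ≤ r ^ (2 ^ (n + 1)) := by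
      apply pow_le_pow_right₀ hr1.le
      have h2 : n < 2 ^ n := Nat.lt_two_pow_self
      have h3 : 2 ^ n ≤ 2 ^ (n + 1) := Nat.pow_le_pow_right (by norm_num) (by omega)
      omega
    have h2 := hk n
    have h3 : r ^ (2 ^ (n + 1)) ≤ C := by
      rw [hr, div_pow, div_le_iff₀ (pow_pos h0 _)]
      exact h2
    linarith

end cstar

section mat

variable {B E : Type} [NonUnitalCStarAlgebra B] [NonUnitalCStarAlgebra E]

/-- The generators. -/
def gen (e : ℤ → ℤ → B →ₗ[ℂ] E) : Set E := {x | ∃ i j b, x = e i j b}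

theorem span_gen {e : ℤ → ℤ → B →ₗ[ℂ] E} (he : MatSys e) :
    (Submodule.span ℂ (gen e)).topologicalClosure = ⊤ := by
  rw [eq_top_iff, ← he.dense]
  apply Submodule.topologicalClosure_mono
  refine iSup_le fun i => iSup_le fun j => ?_
  rintro _ ⟨b, rfl⟩
  exact Submodule.subset_span ⟨i, j, b, rfl⟩

/-- The diagonal embeddings. -/
def dg {e : ℤ → ℤ → B →ₗ[ℂ] E} (he : MatSys e) (i : ℤ) : B →⋆ₙₐ[ℂ] E where
  toFun := e i i
  map_smul' := fun c x => (e i i).map_smul c x
  map_zero' := (e i i).map_zero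
  map_add' := (e i i).map_add
  map_mul' := fun x y => (he.mul i i i x y).symm
  map_star' := fun x => (he.star i i x).symm

theorem dg_apply {e : ℤ → ℤ → B →ₗ[ℂ] E} (he : MatSys e) (i : ℤ) (b : B) :
    dg he i b = e i i b := rfl

theorem dg_injective {e : ℤ → ℤ → B →ₗ[ℂ] E} (he : MatSys e) (i : ℤ) :
    Function.Injective (dg he i) := by
  rw [injective_iff_map_eq_zero]
  intro b hb
  exact he.inj i i b hb

theorem norm_e {e : ℤ → ℤ → B →ₗ[ℂ] E} (he : MatSys e) (i j : ℤ) (b : B) :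
    ‖e i j b‖ = ‖b‖ := by
  have h1 : ‖e j j (star b * b)‖ = ‖star b * b‖ :=
    NonUnitalStarAlgHom.norm_map (dg he j) (dg_injective he j) _
  rw [← he.mul j i j, ← he.star, CStarRing.norm_star_mul_self, CStarRing.norm_star_mul_self] at h1
  exact (mul_self_inj (norm_nonneg _) (norm_nonneg _)).1 h1

/-- A finite matrix. -/
def tot (e : ℤ → ℤ → B →ₗ[ℂ] E) (F : Finset ℤ) (b : ℤ → ℤ → B) : E :=
  ∑ i ∈ F, ∑ j ∈ F, e i j (b i j)

theorem e_mul_tot {e : ℤ → ℤ → B →ₗ[ℂ] E} (he : MatSys e) (F : Finset ℤ) (b : ℤ → ℤ → B)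
    (p i : ℤ) (hi : i ∈ F) (s : B) : e p i s * tot e F b = ∑ l ∈ F, e p l (s * b i l) := by
  unfold tot
  rw [Finset.mul_sum, Finset.sum_eq_single_of_mem i hi]
  · rw [Finset.mul_sum]
    exact Finset.sum_congr rfl fun l _ => he.mul _ _ _ _ _
  · intro k _ hk
    rw [Finset.mul_sum]
    exact Finset.sum_eq_zero fun l _ => he.mul0 _ _ _ _ _ _ (Ne.symm hk)

theorem row_mul_e {e : ℤ → ℤ → B →ₗ[ℂ] E} (he : MatSys e) (F : Finset ℤ) (x : ℤ → B)
    (p j q : ℤ) (hj : j ∈ F) (c : B) : (∑ l ∈ F, e p l (x l)) * e j q c = e p q (x j * c) := by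
  rw [Finset.sum_mul, Finset.sum_eq_single_of_mem j hj]
  · exact he.mul _ _ _ _ _
  · intro k _ hk
    exact he.mul0 _ _ _ _ _ _ hk

theorem norm_coef {e : ℤ → ℤ → B →ₗ[ℂ] E} (he : MatSys e) (F : Finset ℤ) (b : ℤ → ℤ → B)
    (i j : ℤ) (hi : i ∈ F) (hj : j ∈ F) : ‖b i j‖ ≤ ‖tot e F b‖ := by
  set x := tot e F b with hx
  set y := b i j with hy
  have h1 : e j i (star y) * x * e j j (star y * y) = e j j (star y * y * (star y * y)) := by
    rw [hx, e_mul_tot he F b j i hi, row_mul_e he F (fun l => star y * b i l) j j j hj]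
  have h2 : ‖e j i (star y) * x * e j j (star y * y)‖ ≤ ‖y‖ * ‖x‖ * (‖y‖ * ‖y‖) := by
    refine (norm_mul_le _ _).trans ?_
    rw [norm_e he, CStarRing.norm_star_mul_self]
    refine mul_le_mul_of_nonneg_right ((norm_mul_le _ _).trans ?_) (by positivity)
    rw [norm_e he, norm_star]
  have h3 : ‖star y * y * (star y * y)‖ = (‖y‖ * ‖y‖) * (‖y‖ * ‖y‖) := by
    have e1 : star (star y * y) = star y * y := by rw [star_mul, star_star]
    have e2 := CStarRing.norm_star_mul_self (x := star y * y)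
    rw [e1, CStarRing.norm_star_mul_self] at e2
    exact e2
  rw [h1, norm_e he, h3] at h2
  rcases (norm_nonneg y).eq_or_lt with h0 | h0
  · rw [← h0]; exact norm_nonneg _
  · have h4 : ‖y‖ * (‖y‖ * ‖y‖ * ‖y‖) ≤ ‖x‖ * (‖y‖ * ‖y‖ * ‖y‖) := by nlinarith
    exact le_of_mul_le_mul_right h4 (by positivity)

theorem norm_tot_le {e : ℤ → ℤ → B →ₗ[ℂ] E} (he : MatSys e) (F : Finset ℤ) (b : ℤ → ℤ → B)
    (M : ℝ) (hM : ∀ i ∈ F, ∀ j ∈ F, ‖b i j‖ ≤ M) :
    ‖tot e F b‖ ≤ (F.card : ℝ) * ((F.card : ℝ) * M) := by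
  unfold tot
  refine (norm_sum_le _ _).trans ?_
  have : ∀ i ∈ F, ‖∑ j ∈ F, e i j (b i j)‖ ≤ (F.card : ℝ) * M := by
    intro i hi
    refine (norm_sum_le _ _).trans ?_
    have h1 : ∀ j ∈ F, ‖e i j (b i j)‖ ≤ M := fun j hj => by
      rw [norm_e he]; exact hM i hi j hj
    have h2 := Finset.sum_le_card_nsmul F (fun j => ‖e i j (b i j)‖) M h1
    rwa [nsmul_eq_mul] at h2
  have h2 := Finset.sum_le_card_nsmul F (fun i => ‖∑ j ∈ F, e i j (b i j)‖) _ this
  rwa [nsmul_eq_mul] at h2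

theorem tot_mul {e : ℤ → ℤ → B →ₗ[ℂ] E} (he : MatSys e) (F : Finset ℤ) (b c : ℤ → ℤ → B) :
    tot e F b * tot e F c = tot e F (fun i l => ∑ j ∈ F, b i j * c j l) := by
  conv_lhs => unfold tot
  change (∑ i ∈ F, ∑ j ∈ F, e i j (b i j)) * tot e F c = _
  rw [Finset.sum_mul]
  conv_rhs => unfold tot
  refine Finset.sum_congr rfl fun i _ => ?_
  rw [Finset.sum_mul]
  have h1 : ∀ j ∈ F, e i j (b i j) * tot e F c = ∑ l ∈ F, e i l (b i j * c j l) :=
    fun j hj => e_mul_tot he F c i j hj _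
  rw [Finset.sum_congr rfl h1, Finset.sum_comm]
  refine Finset.sum_congr rfl fun l _ => ?_
  rw [map_sum]

theorem tot_star {e : ℤ → ℤ → B →ₗ[ℂ] E} (he : MatSys e) (F : Finset ℤ) (b : ℤ → ℤ → B) :
    star (tot e F b) = tot e F (fun i j => star (b j i)) := by
  unfold tot
  rw [star_sum, Finset.sum_comm]
  refine Finset.sum_congr rfl fun i _ => ?_
  rw [star_sum]
  refine Finset.sum_congr rfl fun j _ => ?_
  rw [he.star]

end mat

section uq

variable {B E E' : Type} [NonUnitalCStarAlgebra B] [NonUnitalCStarAlgebra E]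
  [NonUnitalCStarAlgebra E']

/-- The graph of the correspondence of generators. -/
def gr (e : ℤ → ℤ → B →ₗ[ℂ] E) (e' : ℤ → ℤ → B →ₗ[ℂ] E') : Set (E × E') :=
  {z | ∃ i j b, z = (e i j b, e' i j b)}

theorem gr_repr (e : ℤ → ℤ → B →ₗ[ℂ] E) (e' : ℤ → ℤ → B →ₗ[ℂ] E') (z : E × E')
    (hz : z ∈ Submodule.span ℂ (gr e e')) :
    ∃ (F : Finset ℤ) (b : ℤ → ℤ → B), z = (tot e F b, tot e' F b) := by
  classical
  have h1 : ∃ f : ℤ × ℤ →₀ B, z.1 = f.sum (fun p b => e p.1 p.2 b) ∧
      z.2 = f.sum (fun p b => e' p.1 p.2 b) := by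
    induction hz using Submodule.span_induction with
    | mem x hx =>
      obtain ⟨i, j, b, rfl⟩ := hx
      refine ⟨Finsupp.single (i, j) b, ?_, ?_⟩
      · rw [Finsupp.sum_single_index]
        exact map_zero _
      · rw [Finsupp.sum_single_index]
        exact map_zero _
    | zero => exact ⟨0, by simp, by simp⟩
    | add x y _ _ hx hy =>
      obtain ⟨f, hf1, hf2⟩ := hx
      obtain ⟨g, hg1, hg2⟩ := hy
      refine ⟨f + g, ?_, ?_⟩
      · rw [Finsupp.sum_add_index' (fun _ => map_zero _) (fun _ _ _ => map_add _ _ _), ← hf1,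
          ← hg1]
        rfl
      · rw [Finsupp.sum_add_index' (fun _ => map_zero _) (fun _ _ _ => map_add _ _ _), ← hf2,
          ← hg2]
        rfl
    | smul c x _ hx =>
      obtain ⟨f, hf1, hf2⟩ := hx
      refine ⟨c • f, ?_, ?_⟩
      · rw [Finsupp.sum_smul_index' (fun _ => map_zero _)]
        simp only [map_smul]
        rw [← Finsupp.smul_sum, ← hf1]
        rfl
      · rw [Finsupp.sum_smul_index' (fun _ => map_zero _)]
        simp only [map_smul]
        rw [← Finsupp.smul_sum, ← hf2]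
        rfl
  obtain ⟨f, hf1, hf2⟩ := h1
  set F : Finset ℤ := f.support.image Prod.fst ∪ f.support.image Prod.snd with hF
  have hsub : f.support ⊆ F ×ˢ F := by
    intro p hp
    rw [Finset.mem_product]
    exact ⟨Finset.mem_union_left _ (Finset.mem_image_of_mem _ hp),
      Finset.mem_union_right _ (Finset.mem_image_of_mem _ hp)⟩
  refine ⟨F, fun i j => f (i, j), Prod.ext ?_ ?_⟩
  · rw [hf1, Finsupp.sum_of_support_subset f hsub _ (fun _ _ => map_zero _), Finset.sum_product]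
    rfl
  · rw [hf2, Finsupp.sum_of_support_subset f hsub _ (fun _ _ => map_zero _), Finset.sum_product]
    rfl

theorem norm_tot_le' {e : ℤ → ℤ → B →ₗ[ℂ] E} {e' : ℤ → ℤ → B →ₗ[ℂ] E'} (he : MatSys e)
    (he' : MatSys e') (F : Finset ℤ) (b : ℤ → ℤ → B) : ‖tot e F b‖ ≤ ‖tot e' F b‖ := by
  set R : Set (E × E') := {z | ∃ b : ℤ → ℤ → B, z = (tot e F b, tot e' F b)} with hR
  have h := norm_le_of_bound R ?_ ?_ ((F.card : ℝ) * (F.card : ℝ)) ?_
    (tot e F b, tot e' F b) ⟨b, rfl⟩
  · exact h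
  · rintro _ ⟨b, rfl⟩ _ ⟨c, rfl⟩
    refine ⟨fun i l => ∑ j ∈ F, b i j * c j l, ?_⟩
    rw [← tot_mul he, ← tot_mul he']
    rfl
  · rintro _ ⟨b, rfl⟩
    refine ⟨fun i j => star (b j i), ?_⟩
    rw [← tot_star he, ← tot_star he']
    rfl
  · rintro _ ⟨b, rfl⟩
    rw [mul_assoc]
    exact norm_tot_le he F b _ (fun i hi j hj => norm_coef he' F b i j hi hj)

/-- Packet UQ: uniqueness. -/
theorem uq : S_UQ := by
  intro B E E' _ _ _ e e' he he'
  have hfst : Prod.fst '' gr e e' = gen e := by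
    ext x
    constructor
    · rintro ⟨_, ⟨i, j, b, rfl⟩, rfl⟩
      exact ⟨i, j, b, rfl⟩
    · rintro ⟨i, j, b, rfl⟩
      exact ⟨_, ⟨i, j, b, rfl⟩, rfl⟩
  have hsnd : Prod.snd '' gr e e' = gen e' := by
    ext x
    constructor
    · rintro ⟨_, ⟨i, j, b, rfl⟩, rfl⟩
      exact ⟨i, j, b, rfl⟩
    · rintro ⟨i, j, b, rfl⟩
      exact ⟨_, ⟨i, j, b, rfl⟩, rfl⟩
  have hmul : ∀ x ∈ gr e e', ∀ y ∈ gr e e', x * y ∈ Submodule.span ℂ (gr e e') := by
    rintro _ ⟨i, j, b, rfl⟩ _ ⟨k, l, c, rfl⟩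
    rw [Prod.mk_mul_mk]
    by_cases hjk : j = k
    · subst hjk
      rw [he.mul, he'.mul]
      exact Submodule.subset_span ⟨i, l, b * c, rfl⟩
    · rw [he.mul0 _ _ _ _ _ _ hjk, he'.mul0 _ _ _ _ _ _ hjk]
      exact Submodule.zero_mem _
  have hstar : ∀ x ∈ gr e e', star x ∈ gr e e' := by
    rintro _ ⟨i, j, b, rfl⟩
    refine ⟨j, i, star b, ?_⟩
    rw [← he.star, ← he'.star]
    rfl
  have hnorm : ∀ z ∈ Submodule.span ℂ (gr e e'), ‖z.1‖ = ‖z.2‖ := by
    intro z hz
    obtain ⟨F, b, rfl⟩ := gr_repr e e' z hz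
    exact le_antisymm (norm_tot_le' he he' F b) (norm_tot_le' he' he F b)
  obtain ⟨Φ, hΦ, hΦS⟩ := exists_hom (gr e e') hmul hstar hnorm
    (by rw [hfst]; exact span_gen he) (by rw [hsnd]; exact span_gen he')
  exact ⟨Φ, hΦ, fun i j b => hΦS _ ⟨i, j, b, rfl⟩⟩

/-- Packet RN: right multiplication by the shift. -/
theorem rn : S_RN := by
  intro B E _ _ e he n
  set e' : ℤ → ℤ → B →ₗ[ℂ] E := fun i j => e i (j - n) with he'
  have hfst : (Submodule.span ℂ (gr e e')).map (LinearMap.fst ℂ E E) =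
      Submodule.span ℂ (gen e) := by
    rw [Submodule.map_span]
    congr 1
    ext x
    constructor
    · rintro ⟨_, ⟨i, j, b, rfl⟩, rfl⟩
      exact ⟨i, j, b, rfl⟩
    · rintro ⟨i, j, b, rfl⟩
      exact ⟨_, ⟨i, j, b, rfl⟩, rfl⟩
  have hprod : ∀ z ∈ Submodule.span ℂ (gr e e'), ∀ w ∈ Submodule.span ℂ (gr e e'),
      z.1 * star w.1 = z.2 * star w.2 := by
    intro z hz w hw
    induction hz using Submodule.span_induction with
    | mem x hx =>
      obtain ⟨i, j, b, rfl⟩ := hx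
      induction hw using Submodule.span_induction with
      | mem y hy =>
        obtain ⟨k, l, c, rfl⟩ := hy
        change e i j b * star (e k l c) = e i (j - n) b * star (e k (l - n) c)
        rw [he.star, he.star]
        by_cases hjl : j = l
        · subst hjl
          rw [he.mul, he.mul]
        · rw [he.mul0 _ _ _ _ _ _ hjl, he.mul0 _ _ _ _ _ _ (fun h => hjl (by linarith))]
      | zero => simp
      | add x y _ _ hx hy =>
        simp only [Prod.fst_add, Prod.snd_add, star_add, mul_add] at hx hy ⊢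
        rw [hx, hy]
      | smul c x _ hx =>
        simp only [Prod.smul_fst, Prod.smul_snd, star_smul, mul_smul_comm] at hx ⊢
        rw [hx]
    | zero => simp
    | add x y _ _ hx hy =>
      simp only [Prod.fst_add, Prod.snd_add, add_mul]
      rw [hx, hy]
    | smul c x _ hx =>
      simp only [Prod.smul_fst, Prod.smul_snd, smul_mul_assoc]
      rw [hx]
  have hnorm : ∀ z ∈ Submodule.span ℂ (gr e e'), ‖z.1‖ = ‖z.2‖ := by
    intro z hz
    have h1 := congrArg norm (hprod z hz z hz)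
    rw [CStarRing.norm_self_mul_star, CStarRing.norm_self_mul_star] at h1
    exact (mul_self_inj (norm_nonneg _) (norm_nonneg _)).1 h1
  have hdense : closure (Prod.fst '' (Submodule.span ℂ (gr e e') : Set (E × E))) = Set.univ := by
    have h2 := congrArg (fun M : Submodule ℂ E => (M : Set E)) hfst
    simp only [Submodule.map_coe, LinearMap.fst_apply] at h2
    have h3 : Prod.fst '' (Submodule.span ℂ (gr e e') : Set (E × E)) =
        (Submodule.span ℂ (gen e) : Set E) := h2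
    rw [h3]
    exact congrArg (fun M : Submodule ℂ E => (M : Set E)) (span_gen he)
  obtain ⟨Φ, hΦ1, hΦ2, -⟩ := exists_lin (Submodule.span ℂ (gr e e')) hnorm hdense
  refine ⟨Φ, hΦ1, fun i j b => ?_⟩
  exact hΦ2 (e i j b, e' i j b)
    (Submodule.le_topologicalClosure _ (Submodule.subset_span ⟨i, j, b, rfl⟩))

/-- Packet COR: the corner. -/
theorem cor : S_COR := by
  intro B E _ _ e he
  have hiso : Isometry (dg he 0) := NonUnitalStarAlgHom.isometry _ (dg_injective he 0)
  have hcl : IsClosed (Set.range (dg he 0)) := hiso.isClosedEmbedding.isClosed_range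
  refine ⟨dg he 0, fun b => rfl, ⟨dg_injective he 0, ?_⟩, ?_⟩
  · intro x y a
    have hcl' : IsClosed ((LinearMap.range (e 0 0) : Submodule ℂ E) : Set E) := by
      have : ((LinearMap.range (e 0 0) : Submodule ℂ E) : Set E) = Set.range (dg he 0) := rfl
      rw [this]
      exact hcl
    have h1 : ∀ z ∈ (Submodule.span ℂ (gen e)).topologicalClosure,
        (LinearMap.mulRight ℂ (dg he 0 y) ∘ₗ LinearMap.mulLeft ℂ (dg he 0 x)) z ∈
          LinearMap.range (e 0 0) := by
      apply Pool.Agent.Helper10.Uct.closure_map_mem (gen e) _ hcl'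
      · have : Continuous fun z : E => dg he 0 x * z * dg he 0 y := by fun_prop
        exact this
      · rintro _ ⟨i, j, b, rfl⟩
        change e 0 0 x * e i j b * e 0 0 y ∈ LinearMap.range (e 0 0)
        by_cases hi : 0 = i
        · subst hi
          rw [he.mul]
          by_cases hj : j = 0
          · subst hj
            rw [he.mul]
            exact ⟨_, rfl⟩
          · rw [he.mul0 _ _ _ _ _ _ hj]
            exact Submodule.zero_mem _
        · rw [he.mul0 _ _ _ _ _ _ hi, zero_mul]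
          exact Submodule.zero_mem _
    exact h1 a (by rw [span_gen he]; trivial)
  · unfold Full
    rw [eq_top_iff, ← span_gen he]
    apply Submodule.topologicalClosure_minimal _ _ (Submodule.isClosed_topologicalClosure _)
    rw [Submodule.span_le]
    rintro _ ⟨i, j, b, rfl⟩
    -- approximate `b` by products
    have hne : Continuous (e i j) :=
      AddMonoidHomClass.continuous_of_bound (e i j) 1 (fun x => by rw [norm_e he, one_mul])
    have h1 : b ∈ closure {y : B | ∃ u v, y = u * v * b} := by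
      rw [Metric.mem_closure_iff]
      intro ε hε
      obtain ⟨u, -, -, hu1, hu⟩ := exists_au (⊤ : NonUnitalStarSubalgebra ℂ B)
        (by simp) {b} (by simp) (ε / 2) (by positivity)
      have hu' := hu b (by simp)
      refine ⟨u * u * b, ⟨u, u, rfl⟩, ?_⟩
      rw [dist_comm, dist_eq_norm]
      have e1 : u * u * b - b = u * (u * b - b) + (u * b - b) := by noncomm_ring
      rw [e1]
      have h2 : ‖u * (u * b - b)‖ ≤ 1 * ‖u * b - b‖ :=
        (norm_mul_le _ _).trans (mul_le_mul_of_nonneg_right hu1 (norm_nonneg _))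
      linarith [norm_add_le (u * (u * b - b)) (u * b - b)]
    have h2 : e i j b ∈ closure (e i j '' {y : B | ∃ u v, y = u * v * b}) :=
      image_closure_subset_closure_image hne ⟨b, h1, rfl⟩
    refine closure_mono ?_ h2
    rintro _ ⟨_, ⟨u, v, rfl⟩, rfl⟩
    refine Submodule.subset_span ⟨e i 0 u, v, e 0 j b, ?_⟩
    rw [dg_apply, he.mul, he.mul]

end uq

end Pool.Agent.Helper94.Uct2
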